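import Mathlib
import Pool.Agent.Lib.BSP.Family

set_option autoImplicit false

open Cardinal

namespace Pool.Agent.Results.MP_50703a_lc.BoundingSpecialisation

open Pool.Agent.Lib.BSP

universe u

/-- Any set of trees without uncountable chains (any width, any size) is specialised by one forcing notion `P` for which
player II wins the bounding game. -/
theorem result {ι : Type u} (T : ι → Type u) [∀ i, PartialOrder (T i)] (hT : ∀ i, WideTree (T i)) :
    ∃ (P : Type u) (_ : Preorder P), Nonempty P ∧
      #P ≤ (max ℵ₀ (Cardinal.sum fun i => #(T i))) ^ (ℵ₀ : Cardinal.{u}) ∧ BoundingGame P ∧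
      ∀ i, ∃ F : T i → ℕ → Set P, Specialises F :=
  mainFam T hT

end Pool.Agent.Results.MP_50703a_lc.BoundingSpecialisation
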