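import Mathlib
import Pool.Agent.Lib.STD.FinalB

/-!
# `st > d` is consistent

MP_50703a_lc, Q1. There is a model of ZFC with a dominating set `D` such that every tree with at most
`|D|` nodes, in which every node has countably many predecessors and every chain is countable, is special. So in
this model the special tree number is greater than the dominating number.
-/

set_option autoImplicit false

namespace Pool.Agent.Results.MP_50703a_lc.SpecialTreeAboveDominating

open Pool.Agent.Lib.BVM Pool.Agent.Lib.STD

/-- In some model of ZFC the special tree number is greater than the dominating number. -/
theorem result : ∃ (M : Type 2) (E : M → M → Prop), ModelZFC M E ∧ StGtD E :=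
  exists_stGtD

end Pool.Agent.Results.MP_50703a_lc.SpecialTreeAboveDominating
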