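import Mathlib
import Pool.Agent.Lib.P50703a.Final

set_option autoImplicit false

open Cardinal Ordinal

namespace Pool.Agent.Results.MP_50703a_lc.StLeNonMeagre

open Pool.Agent.Lib.P50703a

/-- ZFC proves `st ≤ non(M)` whenever `non(M) < ℵ_ω`. -/
theorem result : nonMeagre < ℵ_ ω → specialTreeNumber ≤ nonMeagre :=
  st_le_nonMeagre

end Pool.Agent.Results.MP_50703a_lc.StLeNonMeagre
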